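import Pool.Agent.N24.RW.Crit
import Pool.Agent.N24.RW.Clo
import Pool.Agent.N24.RW.Erg
import Pool.Agent.N24.RW.Orb
import Pool.Agent.N24.RW.Main
import Pool.Agent.N603.TH.Pol

/-!
# Prime divisors of the values of polynomials at the points of random orbits (helper400)
-/

set_option autoImplicit false

namespace Pool.Agent.N400.RO

open MeasureTheory Filter Topology
open Pool.Agent.N24.RW
open Pool.Agent.N603.TH (Divergent)

/-- a set of times of natural density zero -/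
def DZ (E : Set ℕ) : Prop :=
  Tendsto (fun N : ℕ => (({n : ℕ | n < N ∧ n ∈ E}.ncard : ℕ) : ℝ) / (N : ℝ)) atTop (𝓝 0)

theorem ncard_mono {A B : Set ℕ} (h : A ⊆ B) (N : ℕ) :
    (({n : ℕ | n < N ∧ n ∈ A}.ncard : ℕ) : ℝ) ≤ (({n : ℕ | n < N ∧ n ∈ B}.ncard : ℕ) : ℝ) := by
  have h1 : ({n : ℕ | n < N ∧ n ∈ B}).Finite := (Set.finite_lt_nat N).subset fun n hn => hn.1
  have h2 : {n : ℕ | n < N ∧ n ∈ A} ⊆ {n : ℕ | n < N ∧ n ∈ B} := fun n hn => ⟨hn.1, h hn.2⟩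
  exact_mod_cast Set.ncard_le_ncard h2 h1

theorem DZ.mono {A B : Set ℕ} (hB : DZ B) (h : A ⊆ B) : DZ A := by
  refine squeeze_zero (fun N => by positivity) (fun N => ?_) hB
  exact div_le_div_of_nonneg_right (ncard_mono h N) (Nat.cast_nonneg _)

theorem DZ.union {A B : Set ℕ} (hA : DZ A) (hB : DZ B) : DZ (A ∪ B) := by
  have h1 := hA.add hB
  rw [add_zero] at h1
  refine squeeze_zero (fun N => by positivity) (fun N => ?_) h1
  rw [← add_div]
  refine div_le_div_of_nonneg_right ?_ (Nat.cast_nonneg _)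
  have h2 : {n : ℕ | n < N ∧ n ∈ A ∪ B} = {n : ℕ | n < N ∧ n ∈ A} ∪ {n : ℕ | n < N ∧ n ∈ B} := by
    ext n
    simp only [Set.mem_union, Set.mem_ofPred_eq]
    tauto
  rw [h2]
  exact_mod_cast Set.ncard_union_le _ _

theorem DZ.finite {A : Set ℕ} (hA : A.Finite) : DZ A := by
  have h1 : Tendsto (fun N : ℕ => ((A.ncard : ℕ) : ℝ) / (N : ℝ)) atTop (𝓝 0) :=
    tendsto_const_div_atTop_nhds_zero_nat _
  refine squeeze_zero (fun N => by positivity) (fun N => ?_) h1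
  refine div_le_div_of_nonneg_right ?_ (Nat.cast_nonneg _)
  have h2 : {n : ℕ | n < N ∧ n ∈ A} ⊆ A := fun n hn => hn.2
  exact_mod_cast Set.ncard_le_ncard h2 hA

/-- the diagonal argument -/
theorem diag {B : ℕ → Set ℕ} (hmono : Monotone B) (hB : ∀ k, DZ (B k)) :
    ∃ E : Set ℕ, DZ E ∧ ∀ k, (B k \ E).Finite := by
  classical
  have h1 : ∀ k : ℕ, ∃ M : ℕ, ∀ N : ℕ, M ≤ N →
      (({n : ℕ | n < N ∧ n ∈ B k}.ncard : ℕ) : ℝ) / (N : ℝ) < 1 / ((k : ℝ) + 1) := by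
    intro k
    have h2 := (hB k).eventually (gt_mem_nhds (show (0 : ℝ) < 1 / ((k : ℝ) + 1) by positivity))
    rwa [eventually_atTop] at h2
  choose M hM using h1
  obtain ⟨M', hM'⟩ : ∃ M' : ℕ → ℕ, M' = fun k => k + ∑ j ∈ Finset.range (k + 1), M j := ⟨_, rfl⟩
  have hM1 : ∀ k, M k ≤ M' k := by
    intro k
    rw [hM']
    have : M k ≤ ∑ j ∈ Finset.range (k + 1), M j :=
      Finset.single_le_sum (fun j _ => Nat.zero_le _) (Finset.mem_range.2 (Nat.lt_succ_self k))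
    simp only
    omega
  have hM2 : ∀ k, k ≤ M' k := by
    intro k
    rw [hM']
    exact Nat.le_add_right _ _
  refine ⟨{n | ∃ k, M' k ≤ n ∧ n ∈ B k}, ?_, fun k => ?_⟩
  · rw [DZ, Metric.tendsto_atTop]
    intro ε hε
    obtain ⟨K, hK⟩ := exists_nat_one_div_lt hε
    refine ⟨M' K, fun N hN => ?_⟩
    obtain ⟨k, hk⟩ : ∃ k, k = Nat.findGreatest (fun k => M' k ≤ N) N := ⟨_, rfl⟩
    have hkK : K ≤ k := by
      rw [hk]
      exact Nat.le_findGreatest ((hM2 K).trans hN) hN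
    have hkN : M' k ≤ N := by
      rw [hk]
      exact Nat.findGreatest_spec (P := fun k => M' k ≤ N) ((hM2 K).trans hN) hN
    have hsub : (({n : ℕ | n < N ∧ n ∈ {n | ∃ k, M' k ≤ n ∧ n ∈ B k}}.ncard : ℕ) : ℝ) ≤
        (({n : ℕ | n < N ∧ n ∈ B k}.ncard : ℕ) : ℝ) := by
      have h3 : ({n : ℕ | n < N ∧ n ∈ B k}).Finite :=
        (Set.finite_lt_nat N).subset fun n hn => hn.1
      have h4 : {n : ℕ | n < N ∧ n ∈ {n | ∃ k, M' k ≤ n ∧ n ∈ B k}} ⊆
          {n : ℕ | n < N ∧ n ∈ B k} := by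
        rintro n ⟨hn, j, hj1, hj2⟩
        refine ⟨hn, ?_⟩
        have hjk : j ≤ k := by
          rw [hk]
          exact Nat.le_findGreatest ((hM2 j).trans (hj1.trans hn.le)) (hj1.trans hn.le)
        exact hmono hjk hj2
      exact_mod_cast Set.ncard_le_ncard h4 h3
    rw [Real.dist_eq, sub_zero, abs_of_nonneg (by positivity)]
    refine (div_le_div_of_nonneg_right hsub (Nat.cast_nonneg _)).trans_lt ?_
    refine (hM k N ((hM1 k).trans hkN)).trans ?_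
    refine lt_of_le_of_lt ?_ hK
    have : (K : ℝ) ≤ k := by exact_mod_cast hkK
    exact one_div_le_one_div_of_le (by positivity) (by linarith)
  · refine (Set.finite_lt_nat (M' k)).subset ?_
    rintro n ⟨hn1, hn2⟩
    by_contra hcon
    exact hn2 ⟨k, not_lt.1 hcon, hn1⟩

theorem DZ.empty : DZ ∅ := DZ.finite Set.finite_empty

/-- the diagonal argument for countable families -/
theorem diag_countable {α : Type} [Countable α] (B : α → Set ℕ) (hB : ∀ x, DZ (B x)) :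
    ∃ E : Set ℕ, DZ E ∧ ∀ x, (B x \ E).Finite := by
  classical
  rcases isEmpty_or_nonempty α with hα | hα
  · exact ⟨∅, DZ.empty, fun x => (hα.false x).elim⟩
  obtain ⟨f, hf⟩ := exists_surjective_nat α
  obtain ⟨E', hE'⟩ : ∃ E' : ℕ → Set ℕ, E' = fun k => {n | ∃ j, j ≤ k ∧ n ∈ B (f j)} := ⟨_, rfl⟩
  have hmono : Monotone E' := by
    intro k k' hkk
    rw [hE']
    rintro n ⟨j, hj, hn⟩
    exact ⟨j, hj.trans hkk, hn⟩
  have hdz : ∀ k, DZ (E' k) := by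
    intro k
    induction k with
    | zero =>
      refine (hB (f 0)).mono ?_
      rw [hE']
      rintro n ⟨j, hj, hn⟩
      have : j = 0 := by omega
      rwa [this] at hn
    | succ k ih =>
      refine (ih.union (hB (f (k + 1)))).mono ?_
      rw [hE']
      rintro n ⟨j, hj, hn⟩
      rcases Nat.lt_or_ge k j with h | h
      · have : j = k + 1 := by omega
        rw [this] at hn
        exact Or.inr hn
      · exact Or.inl ⟨j, h, hn⟩
  obtain ⟨E, e1, e2⟩ := diag hmono hdz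
  refine ⟨E, e1, fun x => ?_⟩
  obtain ⟨k, rfl⟩ := hf x
  refine (e2 k).subset (Set.sdiff_subset_sdiff_left ?_)
  rw [hE']
  exact fun n hn => ⟨k, le_rfl, hn⟩

theorem aeval_red {s p : ℕ} (f : MvPolynomial (Fin s) ℤ) (v : Fin s → ℤ) :
    MvPolynomial.aeval (fun i => (v i : ZMod p)) f = ((MvPolynomial.eval v f : ℤ) : ZMod p) := by
  rw [Pool.Agent.N603.TH.aeval_eq_map, MvPolynomial.eval_map]
  have h1 := MvPolynomial.eval₂_comp_left (Int.castRingHom (ZMod p)) (RingHom.id ℤ) v f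
  rw [RingHom.comp_id] at h1
  exact h1.symm

instance countable_pol (s : ℕ) : Countable (MvPolynomial (Fin s) ℤ) := by
  have h := MvPolynomial.cardinalMk_le_max (σ := Fin s) (R := ℤ)
  rw [← Cardinal.mk_le_aleph0_iff]
  refine h.trans ?_
  simp

/-- `f(t)` is zero or has no prime divisor above `D` which does not divide `G(t)` -/
def Bd {r : ℕ} (f G : MvPolynomial (Fin r) ℤ) (D : ℕ) : Set (Fin r → ℤ) :=
  {t | ¬ (MvPolynomial.eval t f ≠ 0 ∧ ∃ p : ℕ, p.Prime ∧ D < p ∧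
    (p : ℤ) ∣ MvPolynomial.eval t f ∧ ¬ (p : ℤ) ∣ MvPolynomial.eval t G)}

theorem proNull_Bd {r : ℕ} (f G : MvPolynomial (Fin r) ℤ) (D : ℕ) (hf : f ≠ 0)
    (hd : Divergent f G) : ProNull (Bd f G D) := by
  obtain ⟨c1, c2, c3, c4, c5⟩ := t_CLO (Fin r)
  have h1 := c4 f hf
  have h2 := t_CRIT (Fin r) (fun p => p) (fun p hp => hp.pos)
    (fun p p' hp hp' hne => (Nat.coprime_primes hp hp').2 hne)
    (fun p => {v : Fin r → ZMod p | MvPolynomial.aeval v f = 0 ∧ MvPolynomial.aeval v G ≠ 0}) D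
    (fun p => ({v : Fin r → ZMod p | MvPolynomial.aeval v f = 0 ∧
      MvPolynomial.aeval v G ≠ 0}.ncard : ℝ) / (p : ℝ) ^ r) (fun p => by positivity) hd
    (fun p hp _ => by
      have : (0 : ℝ) < p := by exact_mod_cast hp.pos
      rw [Fintype.card_fin, div_mul_cancel₀ _ (by positivity)])
  refine c1 _ _ ?_ (c2 _ _ h1 h2)
  intro t ht
  by_contra hcon
  rw [Set.mem_union, not_or] at hcon
  obtain ⟨h3, h4⟩ := hcon
  apply ht
  refine ⟨h3, ?_⟩
  simp only [Set.mem_ofPred_eq, not_forall, not_not, exists_prop] at h4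
  obtain ⟨p, hp, hpD, h5, h6⟩ := h4
  rw [aeval_red, ZMod.intCast_zmod_eq_zero_iff_dvd] at h5
  rw [aeval_red, Ne, ZMod.intCast_zmod_eq_zero_iff_dvd] at h6
  exact ⟨p, hp, hpD, h5, h6⟩

theorem proNull_empty {r : ℕ} (hr : 2 ≤ r) : ProNull (∅ : Set (Fin r → ℤ)) := by
  obtain ⟨c1, c2, c3, c4, c5⟩ := t_CLO (Fin r)
  exact c3 ⟨⟨0, by omega⟩⟩ ∅ Set.finite_empty

theorem proNull_iUnion {r M : ℕ} (hr : 2 ≤ r) (B : Fin M → Set (Fin r → ℤ))
    (hB : ∀ l, ProNull (B l)) : ProNull (⋃ l, B l) := by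
  obtain ⟨c1, c2, c3, c4, c5⟩ := t_CLO (Fin r)
  induction M with
  | zero =>
    refine c1 _ _ ?_ (proNull_empty hr)
    intro t ht
    obtain ⟨l, _⟩ := Set.mem_iUnion.1 ht
    exact l.elim0
  | succ M ih =>
    refine c1 _ _ ?_ (c2 _ _ (hB 0) (ih (fun l => B l.succ) fun l => hB l.succ))
    intro t ht
    obtain ⟨l, hl⟩ := Set.mem_iUnion.1 ht
    rcases Fin.eq_zero_or_eq_succ l with rfl | ⟨j, rfl⟩
    · exact Or.inl hl
    · exact Or.inr (Set.mem_iUnion.2 ⟨j, hl⟩)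

/-- one set of times of density zero for all polynomials -/
theorem one_set {r : ℕ} (hr : 2 ≤ r) (W : Walk (Fin r)) (v : Fin r → ℤ) (hv : v ≠ 0) :
    ∀ᵐ w ∂(words W.m), ∃ E : Set ℕ, DZ E ∧
      ∀ (f G : MvPolynomial (Fin r) ℤ) (D : ℕ), f ≠ 0 → Divergent f G →
        {n : ℕ | n ∉ E ∧ orb W v w n ∈ Bd f G D}.Finite := by
  have h1 : ∀ x : {x : MvPolynomial (Fin r) ℤ × MvPolynomial (Fin r) ℤ × ℕ //
      x.1 ≠ 0 ∧ Divergent x.1 x.2.1}, ∀ᵐ w ∂(words W.m),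
      DZ {n : ℕ | orb W v w n ∈ Bd x.1.1 x.1.2.1 x.1.2.2} := fun x =>
    t_MAIN t_ORB t_ERG (Fin r) (by rwa [Fintype.card_fin]) W v hv _
      (proNull_Bd _ _ _ x.2.1 x.2.2)
  rw [← ae_all_iff] at h1
  filter_upwards [h1] with w hw
  obtain ⟨E, e1, e2⟩ := diag_countable _ hw
  refine ⟨E, e1, fun f G D hf hd => (e2 ⟨(f, G, D), hf, hd⟩).subset ?_⟩
  rintro n ⟨hn1, hn2⟩
  exact ⟨hn2, hn1⟩

end Pool.Agent.N400.RO
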